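import Pool.Agent.Lib.lead.CXGraphRed

set_option autoImplicit false

namespace Pool.Agent.H.MP_2fd452_lc

open Finset

abbrev S := ℕ × ℕ × ℕ × ℕ
abbrev X := S × ℕ

def Sup (n : ℕ) (E : List (ℕ × ℕ)) (s : S) : Prop :=
  s.1 < 2 * n + 6 ∧ s.2.1 < 2 * n + 6 ∧ (s.2.2.1 = 0 ∧ s.2.2.2 = 0 ∨
    s.1 = 0 ∧ 4 ≤ s.2.1 ∧ s.2.2.1 = 1 ∧ s.2.2.2 < 2 * n + 6 ∧ s.2.2.2 ≠ s.2.1 ∨
    s.2.1 = 1 ∧ 4 ≤ s.1 ∧ s.1 < n + 4 ∧ s.2.2.1 < E.length + 2 ∧ (s.2.2.2 = 0 ∨ 2 ≤ s.2.2.1 ∧ s.2.2.2 < n + 3 ∧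
      (s.1 = (E.getD (s.2.2.1 - 2) (0, 0)).1 + 4 ∨ s.1 = (E.getD (s.2.2.1 - 2) (0, 0)).2 + 4)))

def P (n : ℕ) (E : List (ℕ × ℕ)) (x : X) : Prop :=
  Sup n E x.1 ∧ (x.2 < 2 * n + 6 ∨ x.2 = 2 * n + 6 ∧ x.1.1 = x.1.2.1)

def par (x : X) : X :=
  if x.2 ≠ 0 then (x.1, 0) else if x.1.2.2.1 ≠ 0 then ((x.1.1, x.1.2.1, x.1.2.2.1 - 1, 0), 0)
  else if x.1.2.1 = 0 ∧ x.1.1 ≠ 0 then ((1, 1, 0, 0), 0) else ((0, 0, 0, 0), 0)

def A (x y : X) : Prop := x ≠ y ∧ (y = par x ∨ x = par y)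

/-- `D` is the distance to the colour classes of `φ` -/
def Dist (n : ℕ) (E : List (ℕ × ℕ)) (k : ℕ) (φ : X → ℕ) (D : X → ℕ → ℕ) : Prop :=
  ∀ x c, P n E x → c < k → (D x c = 0 ↔ φ x = c) ∧ (∀ y, P n E y → A x y → D x c ≤ D y c + 1) ∧
    (φ x ≠ c → ∃ y, P n E y ∧ A x y ∧ D x c = D y c + 1)

def Inj (n : ℕ) (E : List (ℕ × ℕ)) (k : ℕ) (D : X → ℕ → ℕ) : Prop :=
  ∀ x y, P n E x → P n E y → (∀ c < k, D x c = D y c) → x = y

variable {n k : ℕ} {E : List (ℕ × ℕ)} {φ : X → ℕ} {D : X → ℕ → ℕ} {x : X} {s : S} {c : ℕ}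

theorem P.par (h : P n E x) : P n E (par x) := by
  simp only [P, Sup, MP_2fd452_lc.par] at *
  split_ifs <;> simp only [true_and, and_true, true_or] <;> omega

theorem Dist.leaf (h : Dist n E k φ D) (hx : P n E x) (h0 : x.2 ≠ 0) (hc : c < k) (h1 : φ x ≠ c) :
    D x c = D (x.1, 0) c + 1 := by
  obtain ⟨y, -, h2, h3⟩ := (h x c hx hc).2.2 h1
  obtain rfl : y = (x.1, 0) := by
    simp only [A, par] at h2
    grind
  exact h3

theorem Dist.one (h : Dist n E k φ D) {j : ℕ} (hx : P n E (s, j)) (h0 : j ≠ 0) (hc : c < k) (h1 : φ (s, j) = c)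
    (h2 : φ (s, 0) ≠ c) : D (s, 0) c = 1 := by
  have h3 : P n E (s, 0) := ⟨hx.1, by simp⟩
  have := (h _ c h3 hc).2.1 _ hx (by simp [A, par, h0, h0.symm])
  have := (h _ c hx hc).1.2 h1
  have := (h _ c h3 hc).1
  omega

theorem Dist.pot (h : Dist n E k φ D) (hc : c < k) (g : X → ℕ) (h1 : ∀ x, P n E x → φ x = c → g x = 0)
    (h2 : ∀ x y, P n E x → P n E y → A x y → g x ≤ g y + 1) (hx : P n E x) : g x ≤ D x c := by
  induction e : D x c generalizing x with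
  | zero => exact (h1 x hx ((h x c hx hc).1.1 e)).le
  | succ d ih =>
    obtain ⟨y, a1, a2, a3⟩ := (h x c hx hc).2.2 fun e' => by simp [(h x c hx hc).1.2 e'] at e
    exact (h2 x y hx a1 a2).trans (Nat.succ_le_succ (ih a1 (by omega)))

theorem Dist.lev (h : Dist n E k φ D) (hc : c < k) {a b : ℕ} (hab : a ≠ b)
    (h1 : ∀ x, P n E x → x.1.1 = a → x.1.2.1 = b → φ x ≠ c) (h2 : D (par ((a, b, 0, 0), 0)) c = 1) {l t : ℕ}
    (hs : Sup n E (a, b, l, t)) : D ((a, b, l, t), 0) c = l + 2 := by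
  have h3 : P n E ((a, b, l, t), 0) := ⟨hs, by simp⟩
  refine le_antisymm ?_ ?_
  · induction l generalizing t with
    | zero =>
      exact ((h _ c h3 hc).2.1 _ h3.par ⟨by simp only [par]; grind, .inl rfl⟩).trans (Nat.succ_le_succ h2.le)
    | succ l ih =>
      have h4 := h3.par
      have := (h _ c h3 hc).2.1 _ h4 ⟨by simp [par], .inl rfl⟩
      simp only [par, ne_eq, not_true, if_false, Nat.add_one_ne_zero, not_false_eq_true, if_true,
        Nat.add_sub_cancel] at this h4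
      have := ih h4.1 h4
      omega
  · refine le_trans (by simp) (h.pot hc (fun x => if x.1.1 = a ∧ x.1.2.1 = b then x.1.2.2.1 + 2 else
      if x = par ((a, b, 0, 0), 0) then 1 else 0) (fun x hx e => ?_) (fun x y hx hy e => ?_) h3)
    · have := (h x c hx hc).1.2 e
      grind
    · clear h1 h2 h3 hs hx hy h
      simp only [A, par] at *
      rcases e with ⟨-, rfl | rfl⟩ <;> grind

theorem surj {α : Type} [DecidableEq α] {s : Finset α} {t : Finset ℕ} (f : α → ℕ) (h1 : ∀ a ∈ s, f a ∈ t)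
    (h2 : Set.InjOn f s) (h : #t ≤ #s) : ∀ c ∈ t, ∃ a ∈ s, f a = c := fun _ hc =>
  surjOn_of_injOn_of_card_le f h1 h2 h hc

theorem back (hk : k ≤ 2 * n + 6) (hφ : ∀ x, P n E x → φ x < k) (h : Dist n E k φ D) (hi : Inj n E k D) :
    ∃ (R : Finset ℕ) (ψ : ℕ → ℕ), #R = 3 ∧ (∀ v < n, ψ v ∈ R) ∧
      ∀ e ∈ E, e.1 < n → e.2 < n → e.1 ≠ e.2 → ψ e.1 ≠ ψ e.2 := by
  have p0 : ∀ s, Sup n E s → P n E (s, 0) := fun s hs => ⟨hs, by simp⟩
  have s0 : ∀ a b, a < 2 * n + 6 → b < 2 * n + 6 → Sup n E (a, b, 0, 0) := fun a b ha hb => ⟨ha, hb, by simp⟩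
  have z := fun x hx => (h x _ hx (hφ x hx)).1.2 rfl
  have tw : ∀ s i j, P n E (s, i) → P n E (s, j) → i ≠ 0 → j ≠ 0 → φ (s, i) = φ (s, j) → i = j :=
    fun s i j hi' hj i0 j0 e => (Prod.mk.inj (hi _ _ hi' hj fun c hc => by
      by_cases e' : φ (s, i) = c
      · rw [(h _ c hi' hc).1.2 e', (h _ c hj hc).1.2 (e ▸ e')]
      · rw [h.leaf hi' i0 hc e', h.leaf hj j0 hc (e ▸ e')])).2
  have pf : ∀ a i, a < 2 * n + 6 → i ∈ Icc 1 (2 * n + 6) → P n E ((a, a, 0, 0), i) := fun a i ha hi =>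
    ⟨s0 a a ha ha, by simp at hi ⊢; omega⟩
  obtain rfl : k = 2 * n + 6 := hk.antisymm (by
    simpa using card_le_card_of_injOn (s := Icc 1 (2 * n + 6)) (t := range k) (fun i => φ ((0, 0, 0, 0), i))
      (fun i hi => by simpa using hφ _ (pf 0 i (by omega) hi))
      fun i hi j hj => tw _ i j (pf 0 i (by omega) hi) (pf 0 j (by omega) hj) (by simp at hi; omega)
        (by simp at hj; omega))
  have cp : ∀ s s', Sup n E s → Sup n E s' → φ (s, 0) = φ (s', 0) → (∀ c < 2 * n + 6, φ (s, 0) ≠ c →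
      D (s, 0) c = D (s', 0) c) → s = s' := fun s s' a1 a2 a3 a4 =>
    (Prod.mk.inj (hi _ _ (p0 s a1) (p0 s' a2) fun c hc => by
      by_cases e : φ (s, 0) = c
      · rw [← e, z _ (p0 s a1), a3, z _ (p0 s' a2)]
      · exact a4 c hc e)).1
  have fu : ∀ a < 2 * n + 6, ∀ c < 2 * n + 6, φ ((a, a, 0, 0), 0) ≠ c → D ((a, a, 0, 0), 0) c = 1 :=
    fun a ha c hc e => by
      obtain ⟨i, b1, b2⟩ := surj (s := Icc 1 (2 * n + 6)) (t := range (2 * n + 6)) (fun i => φ ((a, a, 0, 0), i))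
        (fun i hi => by simpa using hφ _ (pf a i ha hi))
        (fun i hi j hj => tw _ i j (pf a i ha hi) (pf a j ha hj) (by simp at hi; omega) (by simp at hj; omega))
        (by simp) c (by simpa)
      exact h.one (pf a i ha b1) (by simp at b1; omega) hc b2 e
  have fs := surj (s := range (2 * n + 6)) (t := range (2 * n + 6)) (fun a => φ ((a, a, 0, 0), 0))
    (fun a ha => by simpa using hφ _ (p0 _ (s0 a a (by simpa using ha) (by simpa using ha))))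
    (fun a ha b hb e => by
      simp only [coe_range, Set.mem_Iio] at ha hb e
      exact (Prod.mk.inj (cp _ _ (s0 a a ha ha) (s0 b b hb hb) e fun c hc e' => by
        rw [fu a ha c hc e', fu b hb c hc (e ▸ e')])).1) le_rfl
  have mu : ∀ s : S, ∃ m, Sup n E s → s.1 ≠ s.2.1 → m < 2 * n + 6 ∧ 2 ≤ D (s, 0) m ∧ (∀ j, P n E (s, j) → φ (s, j) ≠ m) ∧
      ∀ c < 2 * n + 6, c ≠ m → φ (s, 0) ≠ c → D (s, 0) c = 1 := fun s => by
    by_cases hs : Sup n E s ∧ s.1 ≠ s.2.1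
    swap
    · exact ⟨0, fun a b => (hs ⟨a, b⟩).elim⟩
    have pl : ∀ i ∈ Icc 1 (2 * n + 5), P n E (s, i) := fun i hi => ⟨hs.1, by simp at hi ⊢; omega⟩
    obtain ⟨m, a1, a2⟩ := exists_eq_insert_iff (s := (Icc 1 (2 * n + 5)).image fun i => φ (s, i))
      (t := range (2 * n + 6)) |>.2 ⟨fun c hc => by
        obtain ⟨i, hi, rfl⟩ := mem_image.1 hc
        simpa using hφ _ (pl i hi), by
      rw [card_image_of_injOn fun i hi j hj => tw _ i j (pl i hi) (pl j hj) (by simp at hi; omega)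
        (by simp at hj; omega)]
      simp⟩
    have a3 : m < 2 * n + 6 := by simpa using (a2 ▸ mem_insert_self .. : m ∈ range (2 * n + 6))
    have a4 : ∀ c < 2 * n + 6, c ≠ m → φ (s, 0) ≠ c → D (s, 0) c = 1 := fun c hc e e' => by
      obtain ⟨i, hi, b⟩ := mem_image.1 ((mem_insert.1 (a2 ▸ mem_range.2 hc)).resolve_left e)
      exact h.one (pl i hi) (by simp at hi; omega) hc b e'
    have a5 : φ (s, 0) ≠ m ∧ D (s, 0) m ≠ 1 := by
      obtain ⟨a, b1, b2⟩ := fs _ (mem_range.2 (hφ _ (p0 s hs.1)))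
      have b3 := mem_range.1 b1
      by_contra hn
      refine hs.2 (by rw [cp _ _ hs.1 (s0 a a b3 b3) b2.symm fun c hc e => by
        rw [fu a b3 c hc (b2 ▸ e)]; clear * - a4 hc e hn; grind])
    have := (h _ m (p0 s hs.1) a3).1
    refine ⟨m, fun _ _ => ⟨a3, by omega, fun j hj e => ?_, a4⟩⟩
    rcases j.eq_zero_or_pos with rfl | j0
    · exact a5.1 e
    · exact a1 (mem_image.2 ⟨j, by have := hj.2; have := hs.2; simp at *; omega, e⟩)
  choose μ hμ using mu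
  have ky : ∀ s s', Sup n E s → Sup n E s' → s.1 ≠ s.2.1 → s'.1 ≠ s'.2.1 → φ (s, 0) = φ (s', 0) → μ s = μ s' →
      D (s, 0) (μ s) = D (s', 0) (μ s') → s = s' := fun s s' a1 a2 a3 a4 a5 a6 a7 =>
    cp s s' a1 a2 a5 fun c hc e => by
      by_cases e' : c = μ s
      · rw [e', a7, a6]
      · rw [(hμ s a1 a3).2.2.2 c hc e' e, (hμ s' a2 a4).2.2.2 c hc (a6 ▸ e') (a5 ▸ e)]
  have up : ∀ s, Sup n E s → ∀ c < 2 * n + 6, s.1 ≠ s.2.1 → D (s, 0) c ≤ D (par (s, 0)) c + 1 := fun s hs c hc e =>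
    (h _ c (p0 s hs) hc).2.1 _ (p0 s hs).par ⟨by simp only [par]; clear * - e; grind, .inl rfl⟩
  have f1 : ∀ a b, a < 2 * n + 6 → b < 2 * n + 6 → a ≠ b → D (par ((a, b, 0, 0), 0)) (μ (a, b, 0, 0)) = 1 ∧
      D ((a, b, 0, 0), 0) (μ (a, b, 0, 0)) = 2 := fun a b ha hb e => by
    obtain ⟨a1, a2, -⟩ := hμ _ (s0 a b ha hb) e
    have a3 := up _ (s0 a b ha hb) _ a1 e
    obtain ⟨j, b1, b2⟩ : ∃ j < 2 * n + 6, par ((a, b, 0, 0), 0) = ((j, j, 0, 0), 0) := by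
      by_cases e : b = 0 ∧ a ≠ 0
      exacts [⟨1, by omega, by simp [par, e]⟩, ⟨0, by omega, by simp only [par, if_neg e]; simp⟩]
    have := (h _ _ (p0 _ (s0 j j b1 b1)) a1).1
    have := fu j b1 _ a1
    rw [b2] at a3 ⊢
    omega
  have l3 : ∀ s, Sup n E s → s.1 ≠ s.2.1 → s.2.2.1 ≠ 0 → D (s, 0) (μ s) ≠ 2 := fun s hs e e0 e2 => by
    obtain ⟨⟨a, b⟩, b1, b2⟩ := surjOn_of_injOn_of_card_le (s := (range (2 * n + 6)).offDiag)
      (t := (range (2 * n + 6)).offDiag) (fun p => (φ ((p.1, p.2, 0, 0), 0), μ (p.1, p.2, 0, 0)))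
      (fun p hp => by
        simp only [coe_offDiag, Set.mem_offDiag, coe_range, Set.mem_Iio] at hp ⊢
        have := p0 _ (s0 _ _ hp.1 hp.2.1)
        exact ⟨hφ _ this, (hμ _ this.1 hp.2.2).1, (hμ _ this.1 hp.2.2).2.2.1 0 this⟩)
      (fun p hp q hq e => by
        simp only [coe_offDiag, Set.mem_offDiag, coe_range, Set.mem_Iio, Prod.mk.injEq] at hp hq e
        have := ky _ _ (s0 _ _ hp.1 hp.2.1) (s0 _ _ hq.1 hq.2.1) hp.2.2 hq.2.2 e.1 e.2
          (by rw [(f1 _ _ hp.1 hp.2.1 hp.2.2).2, (f1 _ _ hq.1 hq.2.1 hq.2.2).2])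
        exact Prod.ext (congrArg (·.1) this) (congrArg (·.2.1) this)) le_rfl (show (φ (s, 0), μ s) ∈ _ by
          simp only [coe_offDiag, Set.mem_offDiag, coe_range, Set.mem_Iio]
          exact ⟨hφ _ (p0 s hs), (hμ s hs e).1, (hμ s hs e).2.2.1 0 (p0 s hs)⟩)
    simp only [coe_offDiag, Set.mem_offDiag, coe_range, Set.mem_Iio, Prod.mk.injEq] at b1 b2
    have := ky _ _ (s0 _ _ b1.1 b1.2.1) hs b1.2.2 e b2.1 b2.2 (by rw [(f1 _ _ b1.1 b1.2.1 b1.2.2).2, e2])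
    exact e0 (this ▸ rfl)
  have mc : ∀ a b l t, Sup n E (a, b, l, t) → a ≠ b → μ (a, b, l, t) = μ (a, b, 0, 0) := fun a b l => by
    induction l with
    | zero => intro t hs _; rw [show t = 0 by simp only [Sup] at hs; omega]
    | succ l ih =>
      intro t hs e
      have a1 : Sup n E (a, b, l, 0) := by simpa [par] using (p0 _ hs).par.1
      obtain ⟨a2, a3, -⟩ := hμ _ hs e
      have a4 := up _ hs _ a2 e
      have := l3 _ hs e (by simp)
      have := (hμ _ a1 e).2.2.2 _ a2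
      have := (h _ _ (p0 _ a1) a2).1
      rw [← ih 0 a1 e]
      rw [show par ((a, b, l + 1, t), 0) = ((a, b, l, 0), 0) by simp [par]] at a4
      omega
  have cap : ∀ (f : ℕ → S) c l, (∀ i < 2 * n + 6, Sup n E (f i) ∧ (f i).1 ≠ (f i).2.1 ∧ (f i).2.2.1 = l ∧
      μ ((f i).1, (f i).2.1, 0, 0) = c) → (∀ i < 2 * n + 6, ∀ j < 2 * n + 6, f i = f j → i = j) → False := by
    intro f c l a1 a2
    have a3 : ∀ i < 2 * n + 6, μ (f i) = c ∧ D (f i, 0) c = l + 2 := fun i hi => by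
      obtain ⟨b1, b2, rfl, rfl⟩ := a1 i hi
      exact ⟨mc _ _ _ _ b1 b2, h.lev (hμ _ (s0 _ _ b1.1 b1.2.1) b2).1 b2 (by
        rintro ⟨⟨a, b, l, t⟩, j⟩ hx rfl rfl
        exact mc _ _ _ _ hx.1 b2 ▸ (hμ _ hx.1 b2).2.2.1 j hx) (f1 _ _ b1.1 b1.2.1 b2).1 b1⟩
    have a4 : c < 2 * n + 6 := (a3 0 (by omega)).1 ▸ (hμ _ (a1 0 (by omega)).1 (a1 0 (by omega)).2.1).1
    obtain ⟨i, b1, b2⟩ := surj (s := range (2 * n + 6)) (t := range (2 * n + 6)) (fun i => φ (f i, 0))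
      (fun i hi => by simpa using hφ _ (p0 _ (a1 i (by simpa using hi)).1))
      (fun i hi j hj e => by
        simp only [coe_range, Set.mem_Iio] at hi hj
        exact a2 i hi j hj (ky _ _ (a1 i hi).1 (a1 j hj).1 (a1 i hi).2.1 (a1 j hj).2.1 e (by rw [(a3 i hi).1, (a3 j hj).1])
          (by rw [(a3 i hi).1, (a3 j hj).1, (a3 i hi).2, (a3 j hj).2])))
      le_rfl c (mem_range.2 a4)
    have := a3 i (mem_range.1 b1)
    have := (h _ c (p0 _ (a1 i (mem_range.1 b1)).1) a4).1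
    omega
  have du : ∀ b a' b', 4 ≤ b → b < 2 * n + 6 → Sup n E (a', b', 1, 0) → b ≠ b' → μ (0, b, 0, 0) ≠ μ (a', b', 0, 0) :=
    fun b a' b' b1 b2 b3 b4 e => cap (fun i => if i = b then (a', b', 1, 0) else (0, b, 1, i)) _ 1
      (fun i hi => by
        split_ifs
        · exact ⟨b3, by simp only [Sup] at b3 ⊢; omega, rfl, e.symm⟩
        · exact ⟨by simp only [Sup, true_and]; omega, by simp only; omega, rfl, rfl⟩) (by clear * - b4; grind)
  have nh : ∀ a b, a < 2 * n + 6 → b < 2 * n + 6 → a ≠ b → b ≠ 0 → φ ((0, 0, 0, 0), 0) ≠ μ (a, b, 0, 0) :=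
    fun a b ha hb e e0 e1 => by
      have := (f1 a b ha hb e).1
      rw [show par ((a, b, 0, 0), 0) = ((0, 0, 0, 0), 0) by simp [par, e0], ← e1,
        z _ (p0 _ (s0 0 0 (by omega) (by omega)))] at this
      omega
  refine ⟨range (2 * n + 6) \ insert (φ ((0, 0, 0, 0), 0)) ((Ico 4 (2 * n + 6)).image fun b => μ (0, b, 0, 0)),
    fun v => μ (v + 4, 1, 0, 0), ?_, fun v hv => ?_, fun e he a1 a2 a3 a4 => ?_⟩
  · rw [card_sdiff_of_subset, card_insert_of_notMem, card_image_of_injOn]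
    · simp
    · intro b hb b' hb' e
      by_contra hc
      simp only [coe_Ico, Set.mem_Ico] at hb hb'
      exact du b 0 b' hb.1 hb.2 (by simp only [Sup, true_and]; omega) hc e
    · clear * - nh; grind
    · have a1 := hφ _ (p0 _ (s0 0 0 (by omega) (by omega)))
      have a2 := fun b hb e => (hμ _ (s0 0 b (by omega) hb) e).1
      clear * - a1 a2; grind
  · have a1 := (hμ _ (s0 (v + 4) 1 (by omega) (by omega)) (by simp)).1
    have a2 := nh (v + 4) 1 (by omega) (by omega) (by simp)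
    have a3 := fun b b1 b2 => du b (v + 4) 1 b1 b2 (by simp only [Sup, true_and, true_or, and_true]; omega)
    clear * - a1 a2 a3; grind
  · obtain ⟨i, hi, rfl⟩ := List.getElem_of_mem he
    exact cap (fun j => if j < n + 3 then (E[i].1 + 4, 1, i + 2, j) else (E[i].2 + 4, 1, i + 2, j - (n + 3)))
      (μ (E[i].2 + 4, 1, 0, 0)) (i + 2) (fun j hj => by
        simp only at a4
        split_ifs <;> simp [Sup, hi, a4] <;> omega) (by clear * - a3; grind)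

end Pool.Agent.H.MP_2fd452_lc
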