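import Pool.Agent.H.MP_2fd452_lc.A

set_option autoImplicit false

namespace Pool.Agent.H.MP_2fd452_lc

open Finset

def mu (n : ℕ) (ψ : ℕ → ℕ) (a b : ℕ) : ℕ :=
  if 4 ≤ a ∧ a < n + 4 then (if b = 1 then ψ (a - 4) else if b = ψ (a - 4) then 1 else b) else b

def col (n : ℕ) (ψ : ℕ → ℕ) (x : X) : ℕ :=
  if x.2 = 0 then (if x.1.1 = 0 then x.1.2.2.2 else if x.1.2.2.2 = 0 then x.1.1 else n + 3 + x.1.2.2.2)
  else if x.2 = 2 * n + 6 ∨ x.1.1 ≠ x.1.2.1 ∧ x.2 = mu n ψ x.1.1 x.1.2.1 then 0 else x.2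

variable {n : ℕ} {E : List (ℕ × ℕ)} {ψ : ℕ → ℕ} {D : X → ℕ → ℕ}

theorem col_lt {x : X} (h : P n E x) : col n ψ x < 2 * n + 6 := by
  simp only [P, Sup, col] at *
  split_ifs <;> omega

theorem col_surj {c : ℕ} (h : c < 2 * n + 6) : ∃ x, P n E x ∧ col n ψ x = c :=
  ⟨((c, c, 0, 0), 0), by simp [P, Sup, h], by simp [col, eq_comm]⟩

theorem forw (h1 : ∀ v, 1 ≤ ψ v ∧ ψ v ≤ 3) (h2 : ∀ e ∈ E, e.1 < n → e.2 < n → e.1 ≠ e.2 → ψ e.1 ≠ ψ e.2)
    (h : Dist n E (2 * n + 6) (col n ψ) D) : Inj n E (2 * n + 6) D := by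
  have p0 : ∀ s, Sup n E s → P n E (s, 0) := fun s hs => ⟨hs, by simp⟩
  have ml : ∀ a b, b < 2 * n + 6 → mu n ψ a b < 2 * n + 6 := fun a b hb => by
    have := h1 (a - 4)
    simp only [mu]; split_ifs <;> omega
  have on : ∀ s, Sup n E s → ∀ c < 2 * n + 6, col n ψ (s, 0) ≠ c → (s.1 ≠ s.2.1 → c ≠ mu n ψ s.1 s.2.1) →
      D (s, 0) c = 1 := fun s hs c hc e e' => by
    have := ml s.1 _ hs.2.1
    refine h.one (j := if c ≠ 0 then c else if s.1 = s.2.1 then 2 * n + 6 else mu n ψ s.1 s.2.1) ⟨hs, ?_⟩ ?_ hc ?_ e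
    all_goals clear h h1 h2 ml p0 hs e; (try simp only [col]); grind
  have lv : ∀ s, Sup n E s → s.1 ≠ s.2.1 → D (s, 0) (mu n ψ s.1 s.2.1) = s.2.2.1 + 2 := fun ⟨a, b, l, t⟩ hs e => by
    have hb := ml a b hs.2.1
    have := h1 (a - 4)
    dsimp only at e hb ⊢
    refine h.lev hb e (fun ⟨⟨a, b, l, t⟩, j⟩ hx e1 e2 => ?_) ?_ hs
    · dsimp only at e1 e2
      simp only [P, Sup, col, mu, e1, e2] at hx ⊢
      split_ifs <;> omega
    · by_cases e1 : b = 0 ∧ a ≠ 0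
      · rw [show par ((a, b, 0, 0), 0) = ((1, 1, 0, 0), 0) by simp [par, e1]]
        exact on _ (by simp [Sup]) _ hb (by simp only [col, mu]; grind) (by simp)
      · rw [show par ((a, b, 0, 0), 0) = ((0, 0, 0, 0), 0) by simp only [par, if_neg e1]; simp]
        exact on _ (by simp [Sup]) _ hb (by simp only [col, mu]; grind) (by simp)
  have z := fun x c hx hc => (h x c hx hc).1
  have ss : ∀ s s', Sup n E s → Sup n E s' → (∀ c < 2 * n + 6, D (s, 0) c = D (s', 0) c) → s = s' := by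
    intro s s' a1 a2 a3
    have a4 : col n ψ (s', 0) = col n ψ (s, 0) := (z _ _ (p0 _ a2) (col_lt (p0 _ a1))).1
      (a3 _ (col_lt (p0 _ a1)) ▸ (z _ _ (p0 _ a1) (col_lt (p0 _ a1))).2 rfl)
    have a5 : ∀ s s', Sup n E s → Sup n E s' → (∀ c < 2 * n + 6, D (s, 0) c = D (s', 0) c) → s.1 ≠ s.2.1 →
        s'.1 ≠ s'.2.1 ∧ mu n ψ s.1 s.2.1 = mu n ψ s'.1 s'.2.1 := fun s s' a1 a2 a3 e => by
      have b := ml s.1 _ a1.2.1
      have := lv s a1 e
      have := a3 _ b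
      have := on s' a2 _ b
      have := z _ _ (p0 _ a2) b
      omega
    by_cases e : s.1 = s.2.1
    · have := a5 s' s a2 a1 fun c hc => (a3 c hc).symm
      obtain ⟨a, b, l, t⟩ := s
      obtain ⟨a', b', l', t'⟩ := s'
      simp only [Sup, col, if_true, Prod.mk.injEq] at a1 a2 a4 e this ⊢
      split_ifs at a4 <;> omega
    obtain ⟨b1, b2⟩ := a5 s s' a1 a2 a3 e
    have b3 : s.2.2.1 = s'.2.2.1 := by
      have := lv s a1 e
      have := lv s' a2 b1
      have := a3 _ (ml s.1 _ a1.2.1)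
      rw [← b2] at *
      omega
    obtain ⟨a, b, l, t⟩ := s
    obtain ⟨a', b', l', t'⟩ := s'
    obtain rfl : l = l' := b3
    have b4 : l - 2 < E.length → _ := fun h => h2 (E.getD (l - 2) (0, 0)) (by simp [h])
    have := h1 (a - 4)
    have := h1 (a' - 4)
    simp only [Sup, col, mu, if_true, Prod.mk.injEq, true_and] at a1 a2 a4 e b1 b2 ⊢
    generalize E.getD (l - 2) (0, 0) = x at *
    clear h h1 h2 ml p0 on lv z a3 a5
    obtain ⟨-, -, a1 | a1 | a1⟩ := a1 <;> obtain ⟨-, -, a2 | a2 | a2⟩ := a2 <;> split_ifs at a4 <;> grind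
  have sl : ∀ s i s', P n E (s, i) → i ≠ 0 → Sup n E s' → ¬∀ c < 2 * n + 6, D (s, i) c = D (s', 0) c := by
    intro s i s' a1 a2 a3 a4
    obtain ⟨c, b1, b2, b3, b4, b5⟩ : ∃ c < 5, col n ψ (s, i) ≠ c ∧ col n ψ (s, 0) ≠ c ∧ col n ψ (s', 0) ≠ c ∧
        c ≠ mu n ψ s'.1 s'.2.1 := by
      simp only [Nat.exists_lt_succ_right, Nat.not_lt_zero]
      omega
    have := h.leaf a1 a2 (by omega) b2
    have := on s' a3 c (by omega) b4 fun _ => b5
    have := z _ c (p0 _ a1.1) (by omega)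
    have := a4 c (by omega)
    simp only at *
    omega
  rintro ⟨s, i⟩ ⟨s', i'⟩ a1 a2 a3
  by_cases e : i = 0 <;> by_cases e' : i' = 0
  · subst e e'
    rw [ss s s' a1.1 a2.1 a3]
  · exact (sl s' i' s a2 e' a1.1 fun c hc => (e ▸ a3 c hc).symm).elim
  · exact (sl s i s' a1 e a2.1 (e' ▸ a3)).elim
  have a4 : col n ψ (s', i') = col n ψ (s, i) := (z _ _ a2 (col_lt a1)).1
    (a3 _ (col_lt a1) ▸ (z _ _ a1 (col_lt a1)).2 rfl)
  have a5 : ∀ c < 2 * n + 6, col n ψ (s, i) ≠ c → D (s, 0) c = D (s', 0) c := fun c hc e1 => by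
    have := h.leaf a1 e hc e1
    have := h.leaf a2 e' hc (a4 ▸ e1)
    have := a3 c hc
    simp only at *
    omega
  have a6 : ∀ s i, P n E (s, i) → i ≠ 0 → col n ψ (s, 0) ≠ col n ψ (s, i) → D (s, 0) (col n ψ (s, i)) = 1 :=
    fun s i a e => h.one a e (col_lt a) rfl
  obtain rfl : s = s' := ss s s' a1.1 a2.1 fun c hc => by
    by_cases e1 : col n ψ (s, i) = c
    swap
    · exact a5 c hc e1
    subst e1
    have := a6 s i a1 e
    have := a6 s' i' a2 e'
    rw [a4] at this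
    have b1 := col_lt (ψ := ψ) (p0 _ a1.1)
    have b2 := col_lt (ψ := ψ) (p0 _ a2.1)
    have := a5 _ b1
    have := a5 _ b2
    have := z _ _ (p0 _ a1.1) b1
    have := z _ _ (p0 _ a2.1) b1
    have := z _ _ (p0 _ a1.1) b2
    have := z _ _ (p0 _ a2.1) b2
    have := z _ _ (p0 _ a1.1) hc
    have := z _ _ (p0 _ a2.1) hc
    dsimp only at *
    omega
  have := a1.2
  have := a2.2
  simp only [col, e, e', if_false] at a4
  split_ifs at a4 <;> simp only [Prod.mk.injEq, true_and] at * <;> omega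

section
variable {V : Type} (G : SimpleGraph V)

noncomputable def rp {k : ℕ} (φ : V → Fin k) (v : V) (c : Fin k) : ℕ := sInf (G.dist v '' {s | φ s = c})

variable {G} {k : ℕ} {φ : V → Fin k}

theorem rp_spec (hG : G.Connected) (hφ : Function.Surjective φ) (v : V) (c : Fin k) :
    (rp G φ v c = 0 ↔ φ v = c) ∧ (∀ u, G.Adj v u → rp G φ v c ≤ rp G φ u c + 1) ∧
      (φ v ≠ c → ∃ u, G.Adj v u ∧ rp G φ v c = rp G φ u c + 1) := by
  have h1 : ∀ v, ∃ s, φ s = c ∧ G.dist v s = rp G φ v c := fun v =>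
    Nat.sInf_mem (s := G.dist v '' {s | φ s = c}) ((hφ c).elim fun s h => ⟨_, s, h, rfl⟩)
  have h2 : ∀ v s, φ s = c → rp G φ v c ≤ G.dist v s := fun v s h => Nat.sInf_le ⟨s, h, rfl⟩
  have h3 : ∀ v u, G.Adj v u → rp G φ v c ≤ rp G φ u c + 1 := fun v u h => by
    obtain ⟨s, a1, a2⟩ := h1 u
    have := hG.dist_triangle (u := v) (v := u) (w := s)
    have := h2 v s a1
    rw [SimpleGraph.dist_eq_one_iff_adj.2 h] at *
    omega
  obtain ⟨s, a1, a2⟩ := h1 v
  refine ⟨⟨fun h => by rwa [hG.dist_eq_zero_iff.1 (a2.trans h)], fun h => by simpa using h2 v v h⟩, h3 v, fun h => ?_⟩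
  obtain ⟨p, hp⟩ := hG.exists_walk_length_eq_dist v s
  cases p with
  | nil => exact (h a1).elim
  | @cons _ u _ a p =>
    have := h3 v u a
    have := h2 u s a1
    have := G.dist_le p
    exact ⟨u, a, by simp at hp; omega⟩

theorem tree (r : V) (p : V → V) (rk : V → ℕ) (h1 : ∀ v, v ≠ r → rk (p v) < rk v ∧ G.Adj v (p v))
    (h2 : ∀ u v, G.Adj u v → u ≠ r ∧ v = p u ∨ v ≠ r ∧ u = p v) : G.IsTree := by
  classical
  have : ∀ v, G.Reachable v r := fun v => by
    induction e : rk v using Nat.strong_induction_on generalizing v with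
    | _ n ih =>
      by_cases h : v = r
      exacts [h ▸ .refl _, (h1 v h).2.reachable.trans (ih _ (e ▸ (h1 v h).1) _ rfl)]
  refine ⟨@SimpleGraph.Connected.mk _ _ (fun u v => (this u).trans (this v).symm) ⟨r⟩, fun v c hc => ?_⟩
  obtain ⟨w, a1, a2⟩ := c.support.toFinset.exists_max_image rk ⟨v, by simp⟩
  simp only [List.mem_toFinset] at a1 a2
  have a3 := hc.rotate a1
  have a4 : ∀ x ∈ (c.rotate w a1).support, G.Adj w x → x = p w := fun x hx h => by
    have := a2 x ((c.mem_support_rotate_iff w a1).1 hx)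
    have := h1 x
    have := h2 w x h
    grind
  exact a3.snd_ne_penultimate ((a4 _ (SimpleGraph.Walk.getVert_mem_support ..) (SimpleGraph.Walk.adj_snd a3.not_nil)).trans
    (a4 _ (SimpleGraph.Walk.getVert_mem_support ..) (SimpleGraph.Walk.adj_penultimate a3.not_nil).symm).symm)

end

open Classical in
noncomputable def vs (n : ℕ) (E : List (ℕ × ℕ)) : List X :=
  ((List.range (2 * n + 6) ×ˢ List.range (2 * n + 6) ×ˢ List.range (E.length + 2) ×ˢ List.range (2 * n + 6)) ×ˢ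
    List.range (2 * n + 7)).filter (P n E ·)

theorem mem_vs {x : X} : x ∈ vs n E ↔ P n E x := by
  obtain ⟨⟨a, b, l, t⟩, j⟩ := x
  simp only [vs, List.mem_filter, decide_eq_true_eq, and_iff_right_iff_imp]
  simp only [List.mem_product, List.mem_range, P, Sup]
  omega

open Pool.Agent.Lib.CX

noncomputable def red (a : Gr) : Gr × ℕ :=
  (mkGr (vs a.n a.2) ((vs a.n a.2).map fun x => (x, par x)), 2 * a.n + 6)

theorem red_pt : PT red := by
  have h1 : PT fun a : Gr => vs a.n a.2 := by unfold vs P Sup; fun_prop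
  have h2 : PT par := by unfold par; fun_prop
  unfold red; fun_prop

noncomputable def em (a : Gr) (i : Fin (red a).1.n) : X := (mkGrIso _ _ i).1

theorem em_inj (a : Gr) : Function.Injective (em a) := Subtype.val_injective.comp (mkGrIso _ _).injective

theorem em_mem (a : Gr) (x : X) : P a.n a.2 x ↔ ∃ i, em a i = x :=
  ⟨fun h => ⟨(mkGrIso _ _).symm ⟨x, mem_vs.2 h⟩, by simp [em]⟩, fun ⟨i, h⟩ => h ▸ mem_vs.1 (mkGrIso _ _ i).2⟩

theorem em_adj (a : Gr) (u v : Fin (red a).1.n) : (red a).1.G.Adj u v ↔ A (em a u) (em a v) := by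
  refine (mkGrIso _ _).map_rel_iff.symm.trans ?_
  have h1 := (mkGrIso _ _ u).2
  have h2 := (mkGrIso _ _ v).2
  simp only [Set.mem_ofPred_eq] at h1 h2
  simp only [em, A, SimpleGraph.comap_adj, Function.Embedding.subtype_apply, SimpleGraph.fromRel_adj, List.mem_map,
    Prod.mk.injEq]
  grind

theorem red_tree (a : Gr) : (red a).1.G.IsTree := by
  have := fun i => (em_mem a _).1 ((em_mem a _).2 ⟨i, rfl⟩).par
  choose p hp using this
  obtain ⟨r, hr⟩ := (em_mem a ((0, 0, 0, 0), 0)).1 (by simp [P, Sup])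
  have h1 : ∀ v, v ≠ r → em a v ≠ ((0, 0, 0, 0), 0) := fun v h e => h (em_inj a (e.trans hr.symm))
  have h2 := fun i => (em_mem a _).2 ⟨i, rfl⟩
  refine tree r p (fun v => 2 * (if (em a v).1.1 = (em a v).1.2.1 then min (em a v).1.1 1 else (em a v).1.2.2.1 + 2) +
    min (em a v).2 1) (fun v h => ?_) fun u v h => ?_
  · rw [em_adj, hp]
    have := h1 v h
    have := h2 v
    generalize em a v = x at *
    obtain ⟨⟨a, b, l, t⟩, j⟩ := x
    simp only [P, Sup, A, par, ne_eq, Prod.mk.injEq] at *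
    grind
  · simp only [em_adj, A, ← hp, (em_inj a).eq_iff, (em_inj a).ne_iff] at h
    have : p r = r := em_inj a (by rw [hp, hr]; rfl)
    grind

end Pool.Agent.H.MP_2fd452_lc
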